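import Mathlib
import Pool.Agent.H159.MinC.Lpp
import Pool.Agent.H159.CPair.Ext

/-!
# MP_232e98_an: `1/(1 - 2 z w̄)` is the minimum certificate of the Bergman kernel over `(1/√2) 𝔻`

Let `s'` be a certificate over `X = (1/√2) 𝔻`, normalized at `0`, so that `s' = 1/(1 - F)` with
`F(z,w) = ⟨λ_w, λ_z⟩` a kernel (not necessarily holomorphic), `F(z,z) < 1`, `F(z,0) = 0`, and
`𝔟 F ≥ 𝔟 - 1 ≥ 2 z w̄`. So there is a function `v(z) = ∑ √(n+1) ψ_n z^n` in the unit ball of the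
vector valued Bergman space with `√2 z = ⟨v(z), λ_z⟩`. Hence `‖v(z)‖ ≥ √2 |z|` on `X`, and averaging
over circles gives `∑ (n+1) 2^{-n} ‖ψ_n‖² ≥ 1 ≥ ∑ ‖ψ_n‖²`. So `ψ_n = 0` for `n ≥ 2`,
`‖ψ_0‖² + ‖ψ_1‖² = 1` and `ψ_0 ⟂ ψ_1`. With `P = ⟨ψ_0, λ⟩`, `Q = ⟨ψ_1, λ⟩` we get
`√2 z (1 - Q(z)) = P(z)`, and an identity shows that
`(1 - 2 z w̄)(1 - Q(z))(1 - Q(w)*) = ‖ψ_0‖² (1 - F) + R` with a kernel `R`.
-/

set_option autoImplicit false

namespace Pool.Agent.Results.MP_232e98_an.MinimumCertificate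

open scoped ComplexConjugate ComplexOrder BigOperators
open Filter Topology

/-- `K` is a kernel on `X`: all the matrices `[K(z_i, z_j)]`, `z_i ∈ X`, are positive semidefinite. -/
def IsKernelOn (X : Set ℂ) (K : ℂ → ℂ → ℂ) : Prop :=
  ∀ (n : ℕ) (z : Fin n → ℂ), (∀ i, z i ∈ X) → (Matrix.of fun i j => K (z i) (z j)).PosSemidef

/-- `s` is a complete Pick kernel on `X`: a kernel without zeros of the form
`s(z,w) = δ(z) δ(w)* / (1 - F(z,w))` with `δ` nowhere zero and `F` a kernel on `X` with `F(z,z) < 1`. -/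
def IsCPKernelOn (X : Set ℂ) (s : ℂ → ℂ → ℂ) : Prop :=
  IsKernelOn X s ∧ (∀ z ∈ X, ∀ w ∈ X, s z w ≠ 0) ∧
    ∃ (δ : ℂ → ℂ) (F : ℂ → ℂ → ℂ), (∀ z ∈ X, δ z ≠ 0) ∧ IsKernelOn X F ∧
      (∀ z ∈ X, F z z < 1) ∧ ∀ z ∈ X, ∀ w ∈ X, s z w = δ z * conj (δ w) / (1 - F z w)

/-- `s` is a certificate for `k` over `X`: `s` is a complete Pick kernel and `k = (1 - h) s` on
`X × X` for some kernel `h` on `X`. -/
def IsCertificate (X : Set ℂ) (k s : ℂ → ℂ → ℂ) : Prop :=
  IsCPKernelOn X s ∧ ∃ h : ℂ → ℂ → ℂ, IsKernelOn X h ∧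
    ∀ z ∈ X, ∀ w ∈ X, k z w = (1 - h z w) * s z w

/-- `s` is a minimum certificate for `k` over `X`: `s` is a certificate, and `s'/s` is a kernel on
`X` for every certificate `s'` for `k` over `X`. -/
def IsMinimumCertificate (X : Set ℂ) (k s : ℂ → ℂ → ℂ) : Prop :=
  IsCertificate X k s ∧ ∀ s' : ℂ → ℂ → ℂ, IsCertificate X k s' →
    IsKernelOn X fun z w => s' z w / s z w

/-- The Bergman kernel of the unit disc. -/
noncomputable def bergman (z w : ℂ) : ℂ := 1 / (1 - z * conj w) ^ 2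

/-! ### Kernels -/

section kernels

variable {Ω : Set ℂ} {K L : ℂ → ℂ → ℂ}

lemma IsKernelOn.congr (h : IsKernelOn Ω K) (e : ∀ z ∈ Ω, ∀ w ∈ Ω, L z w = K z w) :
    IsKernelOn Ω L := by
  intro n z hz
  have : (Matrix.of fun i j => L (z i) (z j)) = Matrix.of fun i j => K (z i) (z j) := by
    ext i j; exact e _ (hz i) _ (hz j)
  rw [this]
  exact h n z hz

lemma IsKernelOn.add (h : IsKernelOn Ω K) (h' : IsKernelOn Ω L) :
    IsKernelOn Ω fun z w => K z w + L z w := fun n z hz => (h n z hz).add (h' n z hz)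

lemma IsKernelOn.mul (h : IsKernelOn Ω K) (h' : IsKernelOn Ω L) :
    IsKernelOn Ω fun z w => K z w * L z w := fun n z hz =>
  (h n z hz).hadamard (h' n z hz)

lemma kernel_rankOne (f : ℂ → ℂ) : IsKernelOn Ω fun z w => f z * conj (f w) := by
  intro n z _
  have h := Matrix.posSemidef_vecMulVec_self_star (fun i => f (z i))
  exact h

lemma kernel_const {c : ℝ} (hc : 0 ≤ c) : IsKernelOn Ω fun _ _ => (c : ℂ) := by
  refine (kernel_rankOne fun _ => ((Real.sqrt c : ℝ) : ℂ)).congr fun z _ w _ => ?_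
  rw [Complex.conj_ofReal, ← Complex.ofReal_mul, Real.mul_self_sqrt hc]

lemma kernel_x : IsKernelOn Ω fun z w => z * conj w := kernel_rankOne fun z => z

lemma IsKernelOn.pow (h : IsKernelOn Ω K) (n : ℕ) : IsKernelOn Ω fun z w => K z w ^ n := by
  induction n with
  | zero =>
    refine (kernel_const zero_le_one).congr fun z _ w _ => ?_
    simp
  | succ n ih =>
    refine (ih.mul h).congr fun z _ w _ => ?_
    rw [pow_succ]

lemma kernel_sum {ι : Type*} (s : Finset ι) {K : ι → ℂ → ℂ → ℂ} (h : ∀ i ∈ s, IsKernelOn Ω (K i)) :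
    IsKernelOn Ω fun z w => ∑ i ∈ s, K i z w := by
  classical
  induction s using Finset.induction_on with
  | empty =>
    refine (kernel_const le_rfl).congr fun z _ w _ => ?_
    simp
  | insert a s ha ih =>
    refine ((h a (Finset.mem_insert_self a s)).add
      (ih fun i hi => h i (Finset.mem_insert_of_mem hi))).congr fun z _ w _ => ?_
    rw [Finset.sum_insert ha]

lemma kernel_lim {Kn : ℕ → ℂ → ℂ → ℂ} (h : ∀ n, IsKernelOn Ω (Kn n))
    (hlim : ∀ z ∈ Ω, ∀ w ∈ Ω, Tendsto (fun n => Kn n z w) atTop (𝓝 (K z w))) :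
    IsKernelOn Ω K := by
  intro m z hz
  refine Matrix.PosSemidef.of_dotProduct_mulVec_nonneg ?_ fun c => ?_
  · ext i j
    simp only [Matrix.conjTranspose_apply, Matrix.of_apply]
    have h1 := hlim _ (hz i) _ (hz j)
    have h2 := (continuous_star.tendsto _).comp (hlim _ (hz j) _ (hz i))
    refine tendsto_nhds_unique h2 (h1.congr fun n => ?_)
    have := congrFun (congrFun (h n m z hz).1 i) j
    simp only [Matrix.conjTranspose_apply, Matrix.of_apply] at this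
    exact this.symm
  · have h1 : Tendsto (fun n => star c ⬝ᵥ ((Matrix.of fun i j => Kn n (z i) (z j)).mulVec c)) atTop
        (𝓝 (star c ⬝ᵥ ((Matrix.of fun i j => K (z i) (z j)).mulVec c))) := by
      simp only [dotProduct, Matrix.mulVec, Matrix.of_apply]
      refine tendsto_finsetSum _ fun i _ => Tendsto.const_mul _ ?_
      exact tendsto_finsetSum _ fun j _ => (hlim _ (hz i) _ (hz j)).mul_const _
    exact ge_of_tendsto' h1 fun n => (h n m z hz).dotProduct_mulVec_nonneg c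

lemma kernel_geom (h : IsKernelOn Ω K) (h1 : ∀ z ∈ Ω, ∀ w ∈ Ω, ‖K z w‖ < 1) :
    IsKernelOn Ω fun z w => (1 - K z w)⁻¹ := by
  refine kernel_lim (Kn := fun n z w => ∑ i ∈ Finset.range n, K z w ^ i)
    (fun n => kernel_sum _ fun i _ => h.pow i) fun z hz w hw => ?_
  exact (hasSum_geometric_of_norm_lt_one (h1 z hz w hw)).tendsto_sum_nat

/-- Cauchy-Schwarz -/
lemma IsKernelOn.norm_lt_one (h : IsKernelOn Ω K) (h1 : ∀ z ∈ Ω, (K z z).re < 1) :
    ∀ z ∈ Ω, ∀ w ∈ Ω, ‖K z w‖ < 1 := by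
  intro z hz w hw
  have hp := h 2 ![z, w] (by intro i; fin_cases i <;> simp [hz, hw])
  have hd := hp.det_nonneg
  have hh := congrFun (congrFun hp.1 1) 0
  have h0 := hp.diag_nonneg (i := 0)
  have h2 := hp.diag_nonneg (i := 1)
  rw [Matrix.det_fin_two] at hd
  simp only [Matrix.conjTranspose_apply, Matrix.of_apply, Matrix.cons_val_zero,
    Matrix.cons_val_one] at hd hh h0 h2
  have hzz : K z z = ((K z z).re : ℂ) := by
    have := (Complex.nonneg_iff.1 h0).2
    apply Complex.ext <;> simp [← this]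
  have hww : K w w = ((K w w).re : ℂ) := by
    have := (Complex.nonneg_iff.1 h2).2
    apply Complex.ext <;> simp [← this]
  have hz0 : 0 ≤ (K z z).re := (Complex.nonneg_iff.1 h0).1
  have hw0 : 0 ≤ (K w w).re := (Complex.nonneg_iff.1 h2).1
  rw [← hh, RCLike.star_def, Complex.mul_conj, hzz, hww] at hd
  have hd' : (0 : ℂ) ≤ (((K z z).re * (K w w).re - Complex.normSq (K z w) : ℝ) : ℂ) := by
    push_cast
    exact hd
  have hd'' := Complex.zero_le_real.1 hd'
  rw [Complex.normSq_eq_norm_sq] at hd''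
  have h3 := h1 z hz
  have h4 := h1 w hw
  have h5 : (K z z).re * (K w w).re < 1 := by nlinarith
  by_contra hcon
  push Not at hcon
  nlinarith

end kernels


/-! ### The minimum certificate -/

/-- the disc `{|z|² < 1/2}` -/
def Om : Set ℂ := {z : ℂ | ‖z‖ ^ 2 < 1 / 2}

lemma zero_mem : (0 : ℂ) ∈ Om := by
  change ‖(0 : ℂ)‖ ^ 2 < 1 / 2
  simp

lemma x_lt {z w : ℂ} (hz : z ∈ Om) (hw : w ∈ Om) : ‖z * conj w‖ < 1 / 2 := by
  rw [norm_mul, RCLike.norm_conj]
  have h1 : ‖z‖ ^ 2 < 1 / 2 := hz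
  have h2 : ‖w‖ ^ 2 < 1 / 2 := hw
  nlinarith [sq_nonneg (‖z‖ - ‖w‖)]

lemma kernel_gram {V : Type*} [NormedAddCommGroup V] [InnerProductSpace ℂ V] {Ω : Set ℂ}
    (v : ℂ → V) : IsKernelOn Ω fun z w => inner ℂ (v z) (v w) := by
  intro n z _
  exact Matrix.posSemidef_gram (𝕜 := ℂ) (fun i => v (z i))

lemma IsKernelOn.herm {Ω : Set ℂ} {K : ℂ → ℂ → ℂ} (h : IsKernelOn Ω K) {z w : ℂ} (hz : z ∈ Ω)
    (hw : w ∈ Ω) : conj (K z w) = K w z := by
  have h1 := congrFun (congrFun (h 2 ![w, z] (by intro i; fin_cases i <;> simp [hz, hw])).1 0) 1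
  simpa using h1

lemma IsKernelOn.diag {Ω : Set ℂ} {K : ℂ → ℂ → ℂ} (h : IsKernelOn Ω K) {z : ℂ} (hz : z ∈ Ω) :
    K z z = ((K z z).re : ℂ) ∧ 0 ≤ (K z z).re := by
  have h0 := (h 1 ![z] (by intro i; fin_cases i; simp [hz])).diag_nonneg (i := 0)
  simp only [Matrix.of_apply, Matrix.cons_val_zero] at h0
  have h1 := Complex.nonneg_iff.1 h0
  refine ⟨?_, h1.1⟩
  apply Complex.ext <;> simp [← h1.2]

lemma kernel_diff {Ω : Set ℂ} {K : ℂ → ℂ → ℂ} (h : IsKernelOn Ω K) {a : ℂ} (ha : a ∈ Ω) :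
    IsKernelOn Ω fun z w => K z w - K z a - K a w + K a a := by
  intro n z hz
  have h1 := h (n + 1) (Fin.cons a z) (fun i => by
    refine Fin.cases ?_ (fun j => ?_) i
    · simpa using ha
    · simpa using hz j)
  obtain ⟨m, hm⟩ := Pool.Agent.H159.CPair.gram_of_psd h1
  obtain ⟨α, hα⟩ := hm m le_rfl
  have e : ∀ i j, K ((Fin.cons a z : Fin (n + 1) → ℂ) i) ((Fin.cons a z : Fin (n + 1) → ℂ) j) =
      inner ℂ (α i) (α j) := fun i j => congrFun (congrFun hα i) j
  have e2 : (Matrix.of fun i j => K (z i) (z j) - K (z i) a - K a (z j) + K a a) =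
      Matrix.gram ℂ (fun i : Fin n => α i.succ - α 0) := by
    ext i j
    have h1 := e i.succ j.succ
    have h2 := e i.succ 0
    have h3 := e 0 j.succ
    have h4 := e 0 0
    simp only [Fin.cons_succ, Fin.cons_zero] at h1 h2 h3 h4
    rw [Matrix.gram_apply, inner_sub_left, inner_sub_right, inner_sub_right, Matrix.of_apply,
      h1, h2, h3, h4]
    ring
  rw [e2]
  exact Matrix.posSemidef_gram (𝕜 := ℂ) _

lemma one_sub_ne {Ω : Set ℂ} {K : ℂ → ℂ → ℂ} (h : IsKernelOn Ω K)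
    (h1 : ∀ z ∈ Ω, (K z z).re < 1) {z w : ℂ} (hz : z ∈ Ω) (hw : w ∈ Ω) : 1 - K z w ≠ 0 := by
  intro h0
  have := h.norm_lt_one h1 z hz w hw
  rw [← sub_eq_zero.1 h0, norm_one] at this
  exact lt_irrefl _ this

/-- normalization at the point `a` -/
lemma kernel_norm {Ω : Set ℂ} {K : ℂ → ℂ → ℂ} (h : IsKernelOn Ω K)
    (h1 : ∀ z ∈ Ω, (K z z).re < 1) {a : ℂ} (ha : a ∈ Ω) :
    IsKernelOn Ω fun z w => 1 - (1 - K z w) * (1 - K a a) / ((1 - K z a) * (1 - K a w)) := by
  have hd := kernel_diff h ha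
  obtain ⟨hf, hf0⟩ := h.diag ha
  have hf1 := h1 a ha
  have hc : IsKernelOn Ω fun _ _ => ((1 - (K a a).re : ℝ) : ℂ) := kernel_const (by linarith)
  have hr := kernel_rankOne (Ω := Ω) fun z => K z a - K a a
  have hr2 := kernel_rankOne (Ω := Ω) fun z => (1 - K z a)⁻¹
  refine (((hc.mul hd).add hr).mul hr2).congr fun z hz w hw => ?_
  have n1 := one_sub_ne h h1 hz ha
  have n2 := one_sub_ne h h1 ha hw
  have c1 : conj (K w a - K a a) = K a w - K a a := by
    rw [map_sub, h.herm hw ha, h.herm ha ha]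
  have c2 : conj ((1 - K w a)⁻¹) = (1 - K a w)⁻¹ := by
    rw [map_inv₀, map_sub, map_one, h.herm hw ha]
  rw [c1, c2]
  have e : ((1 - (K a a).re : ℝ) : ℂ) = 1 - K a a := by
    rw [Complex.ofReal_sub, Complex.ofReal_one, ← hf]
  rw [e]
  field_simp
  ring

theorem main_kernel {F : ℂ → ℂ → ℂ} (hF : IsKernelOn Om F) (hF1 : ∀ z ∈ Om, (F z z).re < 1)
    (hdom : IsKernelOn Om fun z w => 1 / (1 - z * conj w) ^ 2 * F z w - 2 * (z * conj w)) :
    IsKernelOn Om fun z w => (1 - 2 * (z * conj w)) * (1 - F z w)⁻¹ := by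
  classical
  obtain ⟨H, i1, i2, i3, lam', hlam'⟩ := Pool.Agent.H159.MinC.exists_gram
    (X := {z : ℂ // ‖z‖ ^ 2 < 1 / 2}) (fun z w => F z w)
    (fun n z => hF n (fun i => (z i : ℂ)) fun i => (z i).2)
  set lam : ℂ → H := fun z => if h : ‖z‖ ^ 2 < 1 / 2 then lam' ⟨z, h⟩ else 0 with hlamd
  have hin : ∀ z ∈ Om, ∀ w ∈ Om, inner ℂ (lam z) (lam w) = F z w := by
    intro z hz w hw
    have hz' : ‖z‖ ^ 2 < 1 / 2 := hz
    have hw' : ‖w‖ ^ 2 < 1 / 2 := hw
    rw [hlamd]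
    simp only [hz', hw', dif_pos]
    exact hlam' _ _
  have hn2 : ∀ z ∈ Om, ‖lam z‖ ^ 2 = (F z z).re := by
    intro z hz
    rw [← hin z hz z hz, ← @inner_self_eq_norm_sq ℂ]
    rfl
  have hlam1 : ∀ z : ℂ, ‖z‖ ^ 2 < 1 / 2 → ‖lam z‖ < 1 := by
    intro z hz
    have h1 := hn2 z hz
    have h2 := hF1 z hz
    nlinarith [norm_nonneg (lam z)]
  obtain ⟨ψ, hs, hs1, hrel⟩ := Pool.Agent.H159.MinC.exists_psi lam (by
    intro n z hz
    have h := hdom n z hz
    have e : (Matrix.of fun i j => 1 / (1 - z i * conj (z j)) ^ 2 * inner ℂ (lam (z i)) (lam (z j))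
        - 2 * (z i * conj (z j))) = Matrix.of fun i j => 1 / (1 - z i * conj (z j)) ^ 2 *
          F (z i) (z j) - 2 * (z i * conj (z j)) := by
      ext i j
      simp only [Matrix.of_apply]
      rw [hin _ (hz i) _ (hz j)]
    rw [e]
    exact h)
  obtain ⟨hz2, hone, horth⟩ := Pool.Agent.H159.MinC.structure_psi ψ hs hs1 lam hlam1 hrel
  set P : ℂ → ℂ := fun z => inner ℂ (lam z) (ψ 0) with hP
  set Q : ℂ → ℂ := fun z => inner ℂ (lam z) (ψ 1) with hQ
  set p : ℝ := ‖ψ 0‖ ^ 2 with hp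
  set q : ℝ := ‖ψ 1‖ ^ 2 with hq
  have hsq2 : ((Real.sqrt 2 : ℝ) : ℂ) * ((Real.sqrt 2 : ℝ) : ℂ) = 2 := by
    rw [← Complex.ofReal_mul, Real.mul_self_sqrt (by norm_num)]; norm_num
  have hPQ : ∀ z ∈ Om, ((Real.sqrt 2 : ℝ) : ℂ) * z * (1 - Q z) = P z := by
    intro z hz
    have h1 := hrel z hz
    have h2 : HasSum (fun n : ℕ => ((Real.sqrt (n + 1) : ℝ) : ℂ) * z ^ n *
        inner ℂ (lam z) (ψ n)) (∑ n ∈ Finset.range 2, ((Real.sqrt (n + 1) : ℝ) : ℂ) * z ^ n *
        inner ℂ (lam z) (ψ n)) := by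
      refine hasSum_sum_of_ne_finset_zero fun n hn => ?_
      rw [Finset.mem_range, not_lt] at hn
      rw [hz2 n hn, inner_zero_right, mul_zero]
    have h3 := h1.unique h2
    rw [Finset.sum_range_succ, Finset.sum_range_one] at h3
    simp only [Nat.cast_zero, zero_add, Real.sqrt_one, Complex.ofReal_one, pow_zero, one_mul,
      Nat.cast_one, pow_one] at h3
    rw [show (1 : ℝ) + 1 = 2 by norm_num] at h3
    simp only [hP, hQ]
    linear_combination h3
  have hQn : ∀ z ∈ Om, ‖Q z‖ < 1 := by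
    intro z hz
    have h1 := norm_inner_le_norm (𝕜 := ℂ) (lam z) (ψ 1)
    have h2 := hlam1 z hz
    have h3 : ‖ψ 1‖ ≤ 1 := by
      have : q ≤ 1 := by nlinarith [sq_nonneg ‖ψ 0‖]
      nlinarith [norm_nonneg (ψ 1)]
    have h4 : ‖lam z‖ * ‖ψ 1‖ ≤ ‖lam z‖ * 1 := mul_le_mul_of_nonneg_left h3 (norm_nonneg _)
    simp only [hQ]
    linarith
  have hQ1 : ∀ z ∈ Om, 1 - Q z ≠ 0 := by
    intro z hz h0
    have := hQn z hz
    rw [← sub_eq_zero.1 h0, norm_one] at this
    exact lt_irrefl _ this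
  have hi00 : inner ℂ (ψ 0) (ψ 0) = ((p : ℝ) : ℂ) := by
    rw [hp]; push_cast; exact inner_self_eq_norm_sq_to_K _
  have hi11 : inner ℂ (ψ 1) (ψ 1) = ((q : ℝ) : ℂ) := by
    rw [hq]; push_cast; exact inner_self_eq_norm_sq_to_K _
  have hi10 : inner ℂ (ψ 1) (ψ 0) = (0 : ℂ) := by
    rw [← inner_conj_symm, horth, map_zero]
  have hR1 : IsKernelOn Om fun z w => (p : ℂ) * F z w - P z * conj (P w) -
      (p : ℂ) * (Q z + conj (Q w)) + (p : ℂ) * q := by
    by_cases hp0 : p = 0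
    · have hψ0 : ψ 0 = 0 := by
        have : ‖ψ 0‖ ^ 2 = 0 := hp0
        exact norm_eq_zero.1 (pow_eq_zero_iff two_ne_zero |>.1 this)
      refine (kernel_const le_rfl).congr fun z hz w hw => ?_
      simp only [hP, hψ0, inner_zero_right, hp0]
      simp
    · have hpC : (p : ℂ) ≠ 0 := by exact_mod_cast hp0
      refine ((kernel_const (c := p) (by rw [hp]; positivity)).mul (kernel_gram fun z => lam z -
        (conj (P z) / (p : ℂ)) • ψ 0 - ψ 1)).congr fun z hz w hw => ?_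
      have c1 : inner ℂ (ψ 0) (lam w) = conj (P w) := by
        simp only [hP]; rw [inner_conj_symm]
      have c2 : inner ℂ (ψ 1) (lam w) = conj (Q w) := by
        simp only [hQ]; rw [inner_conj_symm]
      have c3 : inner ℂ (lam z) (ψ 0) = P z := rfl
      have c4 : inner ℂ (lam z) (ψ 1) = Q z := rfl
      simp only [inner_sub_left, inner_sub_right, inner_smul_left, inner_smul_right, hi00, hi11,
        hi10, horth, c1, c2, c3, c4, hin z hz w hw, map_div₀, Complex.conj_conj,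
        Complex.conj_ofReal]
      field_simp
      ring
  have hR2 := kernel_rankOne (Ω := Om) fun z => (q : ℂ) - Q z
  have hD := kernel_rankOne (Ω := Om) fun z => (1 - Q z)⁻¹
  have hgeo := kernel_geom hF (hF.norm_lt_one hF1)
  have hpk : IsKernelOn Om fun _ _ => (p : ℂ) := kernel_const (by rw [hp]; positivity)
  refine (hD.mul (hpk.add ((hR1.add hR2).mul hgeo))).congr fun z hz w hw => ?_
  have n1 := hQ1 z hz
  have n2 : 1 - conj (Q w) ≠ 0 := by
    intro h0
    apply hQ1 w hw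
    have := congrArg conj h0
    simpa using this
  have n3 := one_sub_ne hF hF1 hz hw
  have hPz := hPQ z hz
  have hPw := congrArg conj (hPQ w hw)
  simp only [map_mul, map_sub, map_one, Complex.conj_ofReal] at hPw
  have honeC : (p : ℂ) + (q : ℂ) = 1 := by exact_mod_cast hone
  have hq' : (q : ℂ) = 1 - p := by rw [← honeC]; ring
  simp only [map_sub, Complex.conj_ofReal, map_inv₀, map_one]
  have key : (1 - 2 * (z * conj w)) * ((1 - Q z) * (1 - conj (Q w))) =
      (1 - Q z) * (1 - conj (Q w)) - P z * conj (P w) := by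
    rw [← hPz, ← hPw, ← hsq2]; ring
  have e1 : (1 - 2 * (z * conj w)) * (1 - F z w)⁻¹ =
      ((1 - 2 * (z * conj w)) * ((1 - Q z) * (1 - conj (Q w)))) *
        ((1 - Q z)⁻¹ * (1 - conj (Q w))⁻¹) * (1 - F z w)⁻¹ := by
    field_simp
  rw [e1, key, hq']
  field_simp
  ring

lemma bergman_eq {z w : ℂ} (hz : z ∈ Om) (hw : w ∈ Om) :
    bergman z w = (1 - (z * conj w) ^ 2 * ((1 - z * conj w)⁻¹ * (1 - z * conj w)⁻¹)) *
      (1 - 2 * (z * conj w))⁻¹ := by
  have hx := x_lt hz hw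
  have n1 : 1 - z * conj w ≠ 0 := by
    intro h0
    rw [← sub_eq_zero.1 h0, norm_one] at hx
    norm_num at hx
  have n2 : 1 - 2 * (z * conj w) ≠ 0 := by
    intro h0
    have : ‖2 * (z * conj w)‖ = 1 := by rw [← sub_eq_zero.1 h0, norm_one]
    rw [norm_mul, Complex.norm_ofNat] at this
    linarith
  rw [bergman, eq_mul_inv_iff_mul_eq₀ n2]
  field_simp
  ring

lemma kernel_szego : IsKernelOn Om fun z w => (1 - z * conj w)⁻¹ :=
  kernel_geom kernel_x fun z hz w hw => (x_lt hz hw).trans (by norm_num)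

lemma kernel_2x : IsKernelOn Om fun z w => 2 * (z * conj w) := by
  refine ((kernel_const (c := 2) (by norm_num)).mul kernel_x).congr fun z _ w _ => ?_
  norm_num

lemma kernel_2x_lt {z : ℂ} (hz : z ∈ Om) : (2 * (z * conj z) : ℂ) < 1 := by
  have h1 : ‖z‖ ^ 2 < 1 / 2 := hz
  have e : (2 * (z * conj z) : ℂ) = ((2 * ‖z‖ ^ 2 : ℝ) : ℂ) := by
    rw [Complex.mul_conj, Complex.normSq_eq_norm_sq]; push_cast; ring
  rw [e, ← Complex.ofReal_one, Complex.real_lt_real]
  linarith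

lemma cert : IsCertificate Om bergman fun z w => 1 / (1 - 2 * z * conj w) := by
  have hlt : ∀ z ∈ Om, (2 * (z * conj z) : ℂ).re < 1 := fun z hz => (Complex.lt_def.1 (kernel_2x_lt hz)).1
  have hne : ∀ z ∈ Om, ∀ w ∈ Om, 1 - 2 * (z * conj w) ≠ 0 := fun z hz w hw =>
    one_sub_ne kernel_2x hlt hz hw
  refine ⟨⟨?_, ?_, ?_⟩, ?_⟩
  · refine (kernel_geom kernel_2x (kernel_2x.norm_lt_one hlt)).congr fun z _ w _ => ?_
    rw [one_div, mul_assoc]
  · intro z hz w hw
    beta_reduce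
    rw [mul_assoc]
    exact one_div_ne_zero (hne z hz w hw)
  · refine ⟨fun _ => 1, fun z w => 2 * (z * conj w), fun _ _ => one_ne_zero, kernel_2x,
      fun z hz => kernel_2x_lt hz, fun z _ w _ => ?_⟩
    beta_reduce
    rw [map_one, mul_one, mul_assoc]
  · refine ⟨fun z w => (z * conj w) ^ 2 * ((1 - z * conj w)⁻¹ * (1 - z * conj w)⁻¹),
      (kernel_x.pow 2).mul (kernel_szego.mul kernel_szego), fun z hz w hw => ?_⟩
    beta_reduce
    rw [bergman_eq hz hw, mul_assoc 2, one_div (1 - 2 * (z * conj w))]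

lemma minimum {s : ℂ → ℂ → ℂ} (hs : IsCertificate Om bergman s) :
    IsKernelOn Om fun z w => s z w / (1 / (1 - 2 * z * conj w)) := by
  obtain ⟨⟨hsk, hsne, δ, F, hδ, hF, hF1, hsF⟩, h, hh, hfac⟩ := hs
  have hF1' : ∀ z ∈ Om, (F z z).re < 1 := fun z hz => (Complex.lt_def.1 (hF1 z hz)).1
  have h0 := zero_mem
  have hb0 : ∀ z : ℂ, bergman z 0 = 1 := by intro z; simp [bergman]
  have hb0' : ∀ z : ℂ, bergman 0 z = 1 := by intro z; simp [bergman]
  have hδ' : ∀ z ∈ Om, conj (δ z) ≠ 0 := fun z hz => by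
    intro h; exact hδ z hz (by simpa using h)
  have nF : ∀ {z w : ℂ}, z ∈ Om → w ∈ Om → 1 - F z w ≠ 0 := fun hz hw => one_sub_ne hF hF1' hz hw
  have hrel : ∀ z ∈ Om, ∀ w ∈ Om, bergman z w * (1 - F z w) = (1 - h z w) * (δ z * conj (δ w)) := by
    intro z hz w hw
    rw [hfac z hz w hw, hsF z hz w hw]
    have := nF hz hw
    field_simp
  -- `h(z,z) < 1`
  have hh1 : ∀ z ∈ Om, (h z z).re < 1 := by
    intro z hz
    have e := hrel z hz z hz
    have hz2 : ‖z‖ ^ 2 < 1 / 2 := hz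
    have e1 : bergman z z = ((1 / (1 - ‖z‖ ^ 2) ^ 2 : ℝ) : ℂ) := by
      rw [bergman, Complex.mul_conj, Complex.normSq_eq_norm_sq]; push_cast; ring
    have e2 := (hF.diag hz).1
    have e3 := (hh.diag hz).1
    have e4 : δ z * conj (δ z) = ((‖δ z‖ ^ 2 : ℝ) : ℂ) := by
      rw [Complex.mul_conj, Complex.normSq_eq_norm_sq]
    rw [e1, e2, e3, e4, ← Complex.ofReal_one, ← Complex.ofReal_sub, ← Complex.ofReal_sub,
      ← Complex.ofReal_mul, ← Complex.ofReal_mul, Complex.ofReal_inj] at e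
    have h5 : 0 < 1 / (1 - ‖z‖ ^ 2) ^ 2 * (1 - (F z z).re) := by
      have := hF1' z hz
      have : 0 < 1 - ‖z‖ ^ 2 := by linarith
      exact mul_pos (by positivity) (by linarith [hF1' z hz])
    rw [e] at h5
    have h6 : 0 < ‖δ z‖ ^ 2 := by
      have := norm_pos_iff.2 (hδ z hz)
      positivity
    have h7 : 0 < 1 - (h z z).re := by
      by_contra hcon
      push Not at hcon
      nlinarith
    linarith
  have nh : ∀ {z w : ℂ}, z ∈ Om → w ∈ Om → 1 - h z w ≠ 0 := fun hz hw => one_sub_ne hh hh1 hz hw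
  -- normalization
  set G : ℂ → ℂ → ℂ := fun z w => 1 - (1 - F z w) * (1 - F 0 0) / ((1 - F z 0) * (1 - F 0 w))
    with hG
  set g : ℂ → ℂ → ℂ := fun z w => 1 - (1 - h z w) * (1 - h 0 0) / ((1 - h z 0) * (1 - h 0 w))
    with hg
  have hGk : IsKernelOn Om G := kernel_norm hF hF1' h0
  have hgk : IsKernelOn Om g := kernel_norm hh hh1 h0
  have hGg : ∀ z ∈ Om, ∀ w ∈ Om, bergman z w * (1 - G z w) = 1 - g z w := by
    intro z hz w hw
    have r1 := hrel z hz w hw
    have r2 := hrel z hz 0 h0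
    have r3 := hrel 0 h0 w hw
    have r4 := hrel 0 h0 0 h0
    rw [hb0, one_mul] at r2
    rw [hb0', one_mul] at r3
    rw [hb0, one_mul] at r4
    simp only [hG, hg, sub_sub_cancel]
    rw [r2, r3, r4, ← mul_div_assoc, ← mul_assoc, r1]
    have a1 := nh hz h0
    have a2 := nh h0 hw
    have a3 := hδ z hz
    have a4 := hδ 0 h0
    have a5 := hδ' w hw
    have a6 := hδ' 0 h0
    field_simp
  have hG1 : ∀ z ∈ Om, (G z z).re < 1 := by
    intro z hz
    have e : 1 - G z z = (((1 - (F z z).re) * (1 - (F 0 0).re) / ‖1 - F z 0‖ ^ 2 : ℝ) : ℂ) := by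
      simp only [hG, sub_sub_cancel]
      have c : 1 - F 0 z = conj (1 - F z 0) := by rw [map_sub, map_one, hF.herm hz h0]
      rw [c, Complex.mul_conj, Complex.normSq_eq_norm_sq, (hF.diag hz).1, (hF.diag h0).1]
      push_cast
      simp only [Complex.ofReal_re]
    have e2 := congrArg Complex.re e
    rw [Complex.ofReal_re, Complex.sub_re, Complex.one_re] at e2
    have h3 : 0 < (1 - (F z z).re) * (1 - (F 0 0).re) / ‖1 - F z 0‖ ^ 2 := by
      have h1 := hF1' z hz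
      have h2 := hF1' 0 h0
      have h4 : 0 < ‖1 - F z 0‖ := norm_pos_iff.2 (nF hz h0)
      exact div_pos (mul_pos (by linarith) (by linarith)) (by positivity)
    linarith
  have hdom : IsKernelOn Om fun z w => 1 / (1 - z * conj w) ^ 2 * G z w - 2 * (z * conj w) := by
    have h2S : IsKernelOn Om fun z w => ((2 : ℝ) : ℂ) * (1 - z * conj w)⁻¹ :=
      (kernel_const (by norm_num)).mul kernel_szego
    refine (hgk.add ((kernel_x.pow 2).mul (h2S.add (kernel_szego.mul kernel_szego)))).congr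
      fun z hz w hw => ?_
    have e := hGg z hz w hw
    have n1 : 1 - z * conj w ≠ 0 := by
      intro h0
      have hx := x_lt hz hw
      rw [← sub_eq_zero.1 h0, norm_one] at hx
      norm_num at hx
    have e2 : 1 / (1 - z * conj w) ^ 2 * G z w = 1 / (1 - z * conj w) ^ 2 - (1 - g z w) := by
      rw [← e, bergman]; ring
    rw [e2]
    push_cast
    field_simp
    ring
  have hmain := main_kernel hGk hG1 hdom
  have hdy := kernel_rankOne (Ω := Om) fun z => δ z / (1 - F z 0)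
  have hc : IsKernelOn Om fun _ _ => ((1 - (F 0 0).re : ℝ) : ℂ) :=
    kernel_const (by linarith [hF1' 0 h0])
  refine ((hc.mul hdy).mul hmain).congr fun z hz w hw => ?_
  have a1 := nF hz h0
  have a2 := nF h0 hw
  have a3 := nF hz hw
  have a4 := nF h0 h0
  have e1 : 1 - G z w = (1 - F z w) * (1 - F 0 0) / ((1 - F z 0) * (1 - F 0 w)) := by
    simp only [hG, sub_sub_cancel]
  have e2 : ((1 - (F 0 0).re : ℝ) : ℂ) = 1 - F 0 0 := by
    rw [Complex.ofReal_sub, Complex.ofReal_one, ← (hF.diag h0).1]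
  have e3 : conj (δ w / (1 - F w 0)) = conj (δ w) / (1 - F 0 w) := by
    rw [map_div₀, map_sub, map_one, hF.herm hw h0]
  rw [e1, e2, e3, hsF z hz w hw, div_div_eq_mul_div, div_one, mul_assoc 2]
  field_simp

/-- There is a minimum certificate for the Bergman kernel over the disc of radius `1/√2`, namely
`1/(1 - 2 z w̄)`. -/
theorem result : IsMinimumCertificate (Metric.ball 0 (1 / Real.sqrt 2)) bergman
    fun z w => 1 / (1 - 2 * z * conj w) := by
  have e : Metric.ball (0 : ℂ) (1 / Real.sqrt 2) = Om := by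
    ext z
    change _ ↔ ‖z‖ ^ 2 < 1 / 2
    rw [mem_ball_zero_iff, show 1 / Real.sqrt 2 = Real.sqrt (1 / 2) by
      rw [Real.sqrt_div zero_le_one, Real.sqrt_one], Real.lt_sqrt (norm_nonneg z)]
  rw [e]
  exact ⟨cert, fun s hs => minimum hs⟩

end Pool.Agent.Results.MP_232e98_an.MinimumCertificate
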